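import Pool.Agent.W180.RR.Asm

set_option autoImplicit false

/-!
The sum of the local heights: combinatorics.
-/

namespace Pool.Agent.Q13.AP

open Finset MvPolynomial NumberField IsDedekindDomain
open Pool.Agent.W180.OP Pool.Agent.W180.TP Pool.Agent.W180.RR
open scoped LinearAlgebra.Projectivization

/-- the sets of the `m` largest values -/
theorem nested {q : ℕ} (r : Fin q → ℝ) :
    ∃ I : ℕ → Finset (Fin q), (∀ m m', m ≤ m' → I m ⊆ I m') ∧
      ∀ m, (I m).card = min m q ∧ ∀ j ∈ I m, ∀ i ∉ I m, r i ≤ r j := by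
  classical
  set σ := Tuple.sort (fun i => - r i) with hσ
  have hmono : Monotone ((fun i => - r i) ∘ σ) := Tuple.monotone_sort _
  refine ⟨fun m => Finset.univ.filter fun i => (σ.symm i).val < m, fun m m' h i hi => ?_,
    fun m => ⟨?_, fun j hj i hi => ?_⟩⟩
  · rw [Finset.mem_filter] at hi ⊢
    exact ⟨hi.1, lt_of_lt_of_le hi.2 h⟩
  · have h1 : (Finset.univ.filter fun i : Fin q => (σ.symm i).val < m).card =
        (Finset.univ.filter fun i : Fin q => i.val < m).card := by
      refine Finset.card_bij (fun i _ => σ.symm i) ?_ ?_ ?_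
      · intro i hi
        rw [Finset.mem_filter] at hi ⊢
        exact ⟨Finset.mem_univ _, hi.2⟩
      · intro a _ b _ h
        exact σ.symm.injective h
      · intro b hb
        refine ⟨σ b, ?_, by simp⟩
        rw [Finset.mem_filter] at hb ⊢
        refine ⟨Finset.mem_univ _, ?_⟩
        rw [Equiv.symm_apply_apply]
        exact hb.2
    rw [h1]
    have h2 : (Finset.univ.filter fun i : Fin q => i.val < m).card = min m q := by
      rcases le_total m q with hle | hle
      · rw [min_eq_left hle]
        have : (Finset.univ.filter fun i : Fin q => i.val < m).card =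
            (Finset.range m).card := by
          refine Finset.card_bij (fun i _ => i.val) ?_ ?_ ?_
          · intro i hi
            exact Finset.mem_range.2 (Finset.mem_filter.1 hi).2
          · intro a _ b _ h
            exact Fin.ext h
          · intro b hb
            have hb' := Finset.mem_range.1 hb
            exact ⟨⟨b, by omega⟩, Finset.mem_filter.2 ⟨Finset.mem_univ _, hb'⟩, rfl⟩
        rw [this, Finset.card_range]
      · rw [min_eq_right hle, Finset.filter_true_of_mem (fun i _ => lt_of_lt_of_le i.2 hle),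
          Finset.card_univ, Fintype.card_fin]
    exact h2
  · rw [Finset.mem_filter] at hj hi
    have hi' : m ≤ (σ.symm i).val := by
      by_contra h
      exact hi ⟨Finset.mem_univ _, by omega⟩
    have h1 : σ.symm j ≤ σ.symm i := by
      rw [Fin.le_def]
      omega
    have h2 := hmono h1
    simp only [Function.comp_apply, Equiv.apply_symm_apply] at h2
    linarith

/-- the sum of the local heights -/
theorem comb {O : Type} [Fintype O] {q N M : ℕ} (hN : 1 ≤ N) (hNM : N ≤ M)
    (la : O → Fin q → ℝ) (U : O → ℝ) (hU : ∀ o, 0 ≤ U o) (C μ h : ℝ) (hC : 0 ≤ C) (hμ : 0 ≤ μ)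
    (hh : 0 ≤ h) (d : Fin q → ℕ)
    (ha : ∀ o, ∀ J : Finset (Fin q), J.card = N → ∀ i ∈ J, (∀ j ∈ J, la o i ≤ la o j) →
      la o i ≤ C + μ * U o)
    (hb : ∀ o, ∀ J : Finset (Fin q), J.card = M → ∀ i ∈ J, (∀ j ∈ J, la o i ≤ la o j) →
      la o i ≤ C)
    (hc : ∀ i, ∑ o, max 0 (la o i) ≤ d i * h + C) (Δ : ℕ)
    (hΔ : ∀ I : Finset (Fin q), I.card ≤ (N - 1) * Fintype.card O → ∑ i ∈ I, d i ≤ Δ) :
    ∑ o, ∑ i, la o i ≤ Δ * h + ((M : ℝ) - N) * μ * ∑ o, U o +
      (Fintype.card O * (((M : ℝ) - N) * C + q * C) + q * C) := by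
  classical
  choose I hI1 hI2 using fun o => nested (la o)
  have hNM' : (0 : ℝ) ≤ (M : ℝ) - N := by
    have : (N : ℝ) ≤ M := by exact_mod_cast hNM
    linarith
  -- a place
  have hloc : ∀ o, ∑ i, la o i ≤ ∑ i ∈ I o (N - 1), max 0 (la o i) +
      ((M : ℝ) - N) * (C + μ * U o) + q * C := by
    intro o
    have hCU : 0 ≤ C + μ * U o := add_nonneg hC (mul_nonneg hμ (hU o))
    have hsub := hI1 o (N - 1) (M - 1) (by omega)
    have h1 : ∑ i, la o i = ∑ i ∈ I o (N - 1), la o i +
        ∑ i ∈ I o (M - 1) \ I o (N - 1), la o i + ∑ i ∈ Finset.univ \ I o (M - 1), la o i := by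
      rw [← Finset.sum_sdiff (Finset.subset_univ (I o (M - 1))), ← Finset.sum_sdiff hsub]
      ring
    have h2 : ∑ i ∈ I o (N - 1), la o i ≤ ∑ i ∈ I o (N - 1), max 0 (la o i) :=
      Finset.sum_le_sum fun i _ => le_max_right _ _
    have hN' : ∀ i, i ∉ I o (N - 1) → la o i ≤ C + μ * U o := by
      intro i hi
      have hc1 : (I o (N - 1)).card = N - 1 := by
        have h3 := (hI2 o (N - 1)).1
        have h4 : (insert i (I o (N - 1))).card ≤ q := by
          have := Finset.card_le_univ (insert i (I o (N - 1)))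
          rwa [Fintype.card_fin] at this
        rw [Finset.card_insert_of_notMem hi] at h4
        omega
      refine ha o (insert i (I o (N - 1))) ?_ i (Finset.mem_insert_self _ _) ?_
      · rw [Finset.card_insert_of_notMem hi, hc1]
        omega
      · intro j hj
        rcases Finset.mem_insert.1 hj with rfl | hj
        · exact le_rfl
        · exact (hI2 o (N - 1)).2 j hj i hi
    have hM' : ∀ i, i ∉ I o (M - 1) → la o i ≤ C := by
      intro i hi
      have hc1 : (I o (M - 1)).card = M - 1 := by
        have h3 := (hI2 o (M - 1)).1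
        have h4 : (insert i (I o (M - 1))).card ≤ q := by
          have := Finset.card_le_univ (insert i (I o (M - 1)))
          rwa [Fintype.card_fin] at this
        rw [Finset.card_insert_of_notMem hi] at h4
        omega
      refine hb o (insert i (I o (M - 1))) ?_ i (Finset.mem_insert_self _ _) ?_
      · rw [Finset.card_insert_of_notMem hi, hc1]
        omega
      · intro j hj
        rcases Finset.mem_insert.1 hj with rfl | hj
        · exact le_rfl
        · exact (hI2 o (M - 1)).2 j hj i hi
    have h3 : ∑ i ∈ I o (M - 1) \ I o (N - 1), la o i ≤ ((M : ℝ) - N) * (C + μ * U o) := by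
      rcases (I o (M - 1) \ I o (N - 1)).eq_empty_or_nonempty with he | he
      · rw [he, Finset.sum_empty]
        exact mul_nonneg hNM' hCU
      have e1 : ∑ i ∈ I o (M - 1) \ I o (N - 1), la o i ≤
          ∑ _i ∈ I o (M - 1) \ I o (N - 1), (C + μ * U o) :=
        Finset.sum_le_sum fun i hi => hN' i (Finset.mem_sdiff.1 hi).2
      rw [Finset.sum_const, nsmul_eq_mul] at e1
      refine e1.trans (mul_le_mul_of_nonneg_right ?_ hCU)
      have e2 : (I o (M - 1) \ I o (N - 1)).card = (I o (M - 1)).card - (I o (N - 1)).card :=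
        Finset.card_sdiff_of_subset hsub
      obtain ⟨i, hi⟩ := he
      have e3 : (I o (N - 1)).card = N - 1 := by
        have h3 := (hI2 o (N - 1)).1
        have h4 : (insert i (I o (N - 1))).card ≤ q := by
          have := Finset.card_le_univ (insert i (I o (N - 1)))
          rwa [Fintype.card_fin] at this
        rw [Finset.card_insert_of_notMem (Finset.mem_sdiff.1 hi).2] at h4
        omega
      have e4 : (I o (M - 1)).card ≤ M - 1 := by
        rw [(hI2 o (M - 1)).1]
        exact min_le_left _ _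
      have e5 : (I o (M - 1) \ I o (N - 1)).card ≤ M - N := by omega
      have e6 : ((M - N : ℕ) : ℝ) = (M : ℝ) - N := by
        rw [Nat.cast_sub hNM]
      rw [← e6]
      exact_mod_cast e5
    have h4 : ∑ i ∈ Finset.univ \ I o (M - 1), la o i ≤ q * C := by
      have e1 : ∑ i ∈ Finset.univ \ I o (M - 1), la o i ≤ ∑ _i ∈ Finset.univ \ I o (M - 1), C :=
        Finset.sum_le_sum fun i hi => hM' i (Finset.mem_sdiff.1 hi).2
      rw [Finset.sum_const, nsmul_eq_mul] at e1
      refine e1.trans (mul_le_mul_of_nonneg_right ?_ hC)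
      have : (Finset.univ \ I o (M - 1)).card ≤ q := by
        have := Finset.card_le_univ (Finset.univ \ I o (M - 1))
        rwa [Fintype.card_fin] at this
      exact_mod_cast this
    linarith
  -- all places
  set II : Finset (Fin q) := Finset.univ.biUnion fun o => I o (N - 1) with hII
  have hIIc : II.card ≤ (N - 1) * Fintype.card O := by
    have h1 := Finset.card_biUnion_le_card_mul (Finset.univ : Finset O) (fun o => I o (N - 1))
      (N - 1) (fun o _ => by
        rw [(hI2 o (N - 1)).1]
        exact min_le_left _ _)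
    rw [Finset.card_univ] at h1
    rw [mul_comm]
    exact h1
  have h1 : ∑ o, ∑ i ∈ I o (N - 1), max 0 (la o i) ≤ Δ * h + q * C := by
    have e1 : ∀ o, ∑ i ∈ I o (N - 1), max 0 (la o i) ≤ ∑ i ∈ II, max 0 (la o i) := by
      intro o
      refine Finset.sum_le_sum_of_subset_of_nonneg ?_ fun i _ _ => le_max_left _ _
      exact Finset.subset_biUnion_of_mem (fun o => I o (N - 1)) (Finset.mem_univ o)
    have e2 := Finset.sum_le_sum fun o (_ : o ∈ Finset.univ) => e1 o
    rw [Finset.sum_comm] at e2
    refine e2.trans ?_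
    have e3 := Finset.sum_le_sum fun i (_ : i ∈ II) => hc i
    refine e3.trans ?_
    rw [Finset.sum_add_distrib, ← Finset.sum_mul, Finset.sum_const, nsmul_eq_mul]
    have e4 : (∑ i ∈ II, (d i : ℝ)) ≤ Δ := by exact_mod_cast hΔ II hIIc
    have e5 : (II.card : ℝ) ≤ q := by
      have := Finset.card_le_univ II
      rw [Fintype.card_fin] at this
      exact_mod_cast this
    exact add_le_add (mul_le_mul_of_nonneg_right e4 hh) (mul_le_mul_of_nonneg_right e5 hC)
  have h2 := Finset.sum_le_sum fun o (_ : o ∈ Finset.univ) => hloc o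
  rw [Finset.sum_add_distrib, Finset.sum_add_distrib, Finset.sum_const, Finset.card_univ,
    nsmul_eq_mul, ← Finset.mul_sum, Finset.sum_add_distrib, ← Finset.mul_sum, Finset.sum_const,
    Finset.card_univ, nsmul_eq_mul] at h2
  calc _ ≤ _ := h2
    _ ≤ (Δ * h + q * C) + ((M : ℝ) - N) * (Fintype.card O * C + μ * ∑ o, U o) +
        Fintype.card O * (q * C) := by linarith
    _ = _ := by ring

variable {K : Type} [Field K] [NumberField K]

/-- `M` divisors without common point -/
theorem far {n q : ℕ} {κ : Type} [Fintype κ] (G : κ → MvPolynomial (Fin n) K)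
    (g : κ → ℕ) (hG : ∀ k, (G k).IsHomogeneous (g k)) (F : Fin q → MvPolynomial (Fin n) K)
    (d : Fin q → ℕ) (hF : ∀ i, (F i).IsHomogeneous (d i)) (M : ℕ)
    (hM : ∀ J : Finset (Fin q), J.card = M → ∀ (L : Type) [Field L] [Algebra K L]
      (x : Fin n → L), x ≠ 0 → (∀ j ∈ J, aeval x (F j) = 0) → ¬ ∀ k, aeval x (G k) = 0)
    (f : AbsoluteValue K ℝ) (p : Pl K) (s : ℝ) (hs : 0 < s) (hf : ∀ x, f x = av p x ^ s) :
    ∃ C : ℝ, 0 ≤ C ∧ ∀ x : Fin n → K, x ≠ 0 → (∀ k, aeval x (G k) = 0) →
      (∀ i, aeval x (F i) ≠ 0) →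
      ∀ J : Finset (Fin q), J.card = M → ∀ i ∈ J,
        (∀ j ∈ J, rho f (d j) (F j) x ≤ rho f (d i) (F i) x) →
        - Real.log (rho f (d i) (F i) x) ≤ C := by
  classical
  obtain ⟨C, hC0, hC⟩ := locN G g hG F d hF 0 M (by
      intro J hJ a Q _
      have h1 : (X a : MvPolynomial (Fin n) K) ∈
          (Ideal.span (Set.range (Sum.elim (fun j : J => F j.1) G))).radical := by
        refine mem_rad _ _ fun L _ _ x hx => ?_
        by_contra hxa
        rw [aeval_X] at hxa
        exact hM J hJ L x (by rintro rfl; exact hxa rfl) (fun j hj => hx (Sum.inl ⟨j, hj⟩))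
          fun k => hx (Sum.inr k)
      obtain ⟨m, hm⟩ := h1
      exact ⟨m, Ideal.mul_mem_right _ _ hm⟩) ∅ (by
      intro J hJ L _ _ x hx h1 h2
      exact absurd h2 (hM J hJ L x hx h1)) f p s hs hf
  refine ⟨C, hC0, fun x hx hGx hFx J hJ i hi hmin => ?_⟩
  have h := hC x hx hGx hFx (by simp) 0 le_rfl (by simp) J hJ i hi hmin
  simpa using h

end Pool.Agent.Q13.AP
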