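import Pool.Agent.Q13.AP.Sch
import Pool.Agent.Q13.AP.Comb

set_option autoImplicit false

/-!
Bounds for the proximity function of several divisors at rational points.
-/

namespace Pool.Agent.Q13.AP

open Finset MvPolynomial NumberField IsDedekindDomain
open Pool.Agent.W180.OP Pool.Agent.W180.TP Pool.Agent.W180.RR
open scoped LinearAlgebra.Projectivization

variable {K : Type} [Field K] [NumberField K]

/-- from the local statements to the proximity function -/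
theorem assemble {n q N M : ℕ} {κ : Type} [Fintype κ] (G : κ → MvPolynomial (Fin n) ℤ)
    (g : κ → ℕ) (hG : ∀ k, (G k).IsHomogeneous (g k)) (F : Fin q → MvPolynomial (Fin n) ℤ)
    (d : Fin q → ℕ) (hF : ∀ i, (F i).IsHomogeneous (d i)) (hN : 1 ≤ N) (hNM : N ≤ M)
    (hM : ∀ J : Finset (Fin q), J.card = M → ∀ (L : Type) [Field L] [Algebra K L]
      (x : Fin n → L), x ≠ 0 → (∀ j ∈ J, aeval x (F j) = 0) → ¬ ∀ k, aeval x (G k) = 0)
    (S : Finset ℕ) (hS : ∀ ℓ ∈ S, ℓ.Prime) (Y : Sys K S)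
    (hY : ∀ i (n : ℤ), Y.fs i (n : K) = (padicNorm i.1 (n : ℚ) : ℝ))
    (hfa : ∀ o, ∃ (p : Pl K) (s : ℝ), 0 < s ∧ ∀ x, Y.fa o x = av p x ^ s)
    (Δ : ℕ) (hΔ : ∀ I : Finset (Fin q), I.card ≤ (N - 1) * (S.card + 1) → ∑ i ∈ I, d i ≤ Δ)
    (Ca μ : ℝ) (hCa : 0 ≤ Ca) (hμ : 0 ≤ μ) :
    ∃ C : ℝ, 0 ≤ C ∧ ∀ x : Fin n → ℤ, Prim x → (∀ k, eval x (G k) = 0) →
      (∀ i, eval x (F i) ≠ 0) → ∀ U : Option S → ℝ, (∀ o, 0 ≤ U o) →
      (∀ o, ∀ J : Finset (Fin q), J.card = N → ∀ i ∈ J,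
          (∀ j ∈ J, rho (Y.fa o) (d j) (bK K (F j)) (ck K x) ≤
            rho (Y.fa o) (d i) (bK K (F i)) (ck K x)) →
          - Real.log (rho (Y.fa o) (d i) (bK K (F i)) (ck K x)) ≤ Ca + μ * U o) →
      ∑ i, (d i * Real.log (hgt x) - Real.log (sfree S (eval x (F i)))) ≤
        Δ * Real.log (hgt x) + ((M : ℝ) - N) * μ * ∑ o, U o + C := by
  classical
  have hb : ∀ o, ∃ C : ℝ, 0 ≤ C ∧ ∀ x : Fin n → K, x ≠ 0 → (∀ k, aeval x (bK K (G k)) = 0) →
      (∀ i, aeval x (bK K (F i)) ≠ 0) →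
      ∀ J : Finset (Fin q), J.card = M → ∀ i ∈ J,
        (∀ j ∈ J, rho (Y.fa o) (d j) (bK K (F j)) x ≤ rho (Y.fa o) (d i) (bK K (F i)) x) →
        - Real.log (rho (Y.fa o) (d i) (bK K (F i)) x) ≤ C := by
    intro o
    obtain ⟨p, s, hs, hf⟩ := hfa o
    exact far (fun k => bK K (G k)) g (fun k => bK_hom K (hG k)) (fun i => bK K (F i)) d
      (fun i => bK_hom K (hF i)) M (by
        intro J hJ L _ _ x hx h1 h2
        refine hM J hJ L x hx (fun j hj => ?_) fun k => ?_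
        · rw [← aeval_bK (K := K)]
          exact h1 j hj
        · rw [← aeval_bK (K := K)]
          exact h2 k) (Y.fa o) p s hs hf
  choose Cb hCb0 hCb using hb
  set Cc : Fin q → ℝ := fun i => Real.log (1 + cs (Y.fa none) (bK K (F i))) with hCc
  have hCc0 : ∀ i, 0 ≤ Cc i := fun i => Real.log_nonneg (by
    have := cs_nonneg (Y.fa none) (bK K (F i))
    linarith)
  set C : ℝ := Ca + ∑ o, Cb o + ∑ i, Cc i with hC
  have hCbs : 0 ≤ ∑ o, Cb o := Finset.sum_nonneg fun o _ => hCb0 o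
  have hCcs : 0 ≤ ∑ i, Cc i := Finset.sum_nonneg fun i _ => hCc0 i
  have hC0 : 0 ≤ C := by positivity
  have hNM' : (0 : ℝ) ≤ (M : ℝ) - N := by
    have : (N : ℝ) ≤ M := by exact_mod_cast hNM
    linarith
  refine ⟨Fintype.card (Option S) * (((M : ℝ) - N) * C + q * C) + q * C, by positivity,
    fun x hx hGx hFx U hU ha => ?_⟩
  have hxK : ck K x ≠ 0 := ck_ne hx.ne
  have hH := hgt_ge_one hx.ne
  have hlog : 0 ≤ Real.log (hgt x) := Real.log_nonneg hH
  have hFK : ∀ i, aeval (ck K x) (bK K (F i)) ≠ 0 := by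
    intro i
    rw [aeval_ck]
    exact_mod_cast hFx i
  have hGK : ∀ k, aeval (ck K x) (bK K (G k)) = 0 := by
    intro k
    rw [aeval_ck, hGx k, Int.cast_zero]
  set la : Option S → Fin q → ℝ := fun o i =>
    - Real.log (rho (Y.fa o) (d i) (bK K (F i)) (ck K x)) with hla
  have hrho : ∀ o i, 0 < rho (Y.fa o) (d i) (bK K (F i)) (ck K x) := fun o i =>
    rho_pos _ _ _ hxK (hFK i)
  have hmono : ∀ o i j, la o i ≤ la o j → rho (Y.fa o) (d j) (bK K (F j)) (ck K x) ≤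
      rho (Y.fa o) (d i) (bK K (F i)) (ck K x) := by
    intro o i j h
    simp only [hla, neg_le_neg_iff] at h
    exact (Real.log_le_log_iff (hrho o j) (hrho o i)).1 h
  have hsum : ∀ i, ∑ o, la o i = d i * Real.log (hgt x) - Real.log (sfree S (eval x (F i))) :=
    fun i => sum_rho S hS Y hY (d i) (F i) hx (hFx i)
  have hmax : ∀ i, ∑ o, max 0 (la o i) ≤ d i * Real.log (hgt x) + C := by
    intro i
    have e1 : ∀ o, max 0 (la o i) ≤ la o i + (if o = none then Cc i else 0) := by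
      intro o
      rcases o with _ | ℓ
      · rw [if_pos rfl]
        have h1 : rho (Y.fa none) (d i) (bK K (F i)) (ck K x) ≤
            1 + cs (Y.fa none) (bK K (F i)) := by
          have e2 : rho (Y.fa none) (d i) (bK K (F i)) (ck K x) ≤
              cs (Y.fa none) (bK K (F i)) := by
            unfold rho
            rw [div_le_iff₀ (pow_pos (nrm_pos _ hxK) _)]
            exact abv_mv (Y.fa none) (bK K (F i)) (bK_hom K (hF i)) (ck K x)
          linarith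
        have h2 := Real.log_le_log (hrho none i) h1
        have h3 : - Cc i ≤ la none i := by
          simp only [hla, hCc]
          linarith
        have h4 := hCc0 i
        exact max_le (by linarith) (by linarith)
      · rw [if_neg (by simp), add_zero]
        refine max_le ?_ le_rfl
        have : Fact (ℓ.1).Prime := ⟨hS ℓ.1 ℓ.2⟩
        have h1 : rho (Y.fa (some ℓ)) (d i) (bK K (F i)) (ck K x) =
            (padicNorm ℓ.1 ((eval x (F i) : ℤ) : ℚ) : ℝ) := by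
          unfold rho
          rw [aeval_ck]
          show Y.fs ℓ _ / nrm (Y.fs ℓ) _ ^ d i = _
          rw [nrm_fs Y hx, one_pow, div_one, hY]
        have h2 : (padicNorm ℓ.1 ((eval x (F i) : ℤ) : ℚ) : ℝ) ≤ 1 := by
          exact_mod_cast padicNorm.of_int _
        have h3 := hrho (some ℓ) i
        rw [h1] at h3
        have := Real.log_nonpos h3.le h2
        simp only [hla]
        rw [h1]
        linarith
    have e2 := Finset.sum_le_sum fun o (_ : o ∈ (Finset.univ : Finset (Option S))) => e1 o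
    rw [Finset.sum_add_distrib, hsum, Finset.sum_ite_eq', if_pos (Finset.mem_univ _)] at e2
    have e3 : 0 ≤ Real.log (sfree S (eval x (F i))) := Real.log_nonneg (sfree_pos S hS (hFx i))
    have e4 : Cc i ≤ ∑ i, Cc i := Finset.single_le_sum (f := Cc) (fun i _ => hCc0 i)
      (Finset.mem_univ i)
    rw [hC]
    linarith
  have hkey := comb hN hNM la U hU C μ (Real.log (hgt x)) hC0 hμ hlog d
    (by
      intro o J hJ i hi h
      have := ha o J hJ i hi fun j hj => hmono o i j (h j hj)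
      have e : Ca ≤ C := by rw [hC]; linarith
      linarith)
    (by
      intro o J hJ i hi h
      have := hCb o (ck K x) hxK hGK hFK J hJ i hi fun j hj => hmono o i j (h j hj)
      have e : Cb o ≤ ∑ o, Cb o := Finset.single_le_sum (f := Cb) (fun o _ => hCb0 o)
        (Finset.mem_univ o)
      rw [hC]
      linarith)
    hmax Δ (by
      intro I hI
      rw [Fintype.card_option, Fintype.card_coe] at hI
      exact hΔ I hI)
  rw [Finset.sum_comm] at hkey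
  simp_rw [hsum] at hkey
  linarith

/-- all finite sets of places -/
theorem proxS {n q N M μ : ℕ} {κ : Type} [Fintype κ] (G : κ → MvPolynomial (Fin n) ℤ)
    (g : κ → ℕ) (hG : ∀ k, (G k).IsHomogeneous (g k)) (F : Fin q → MvPolynomial (Fin n) ℤ)
    (d : Fin q → ℕ) (hF : ∀ i, (F i).IsHomogeneous (d i)) (hN : 1 ≤ N) (hNM : N ≤ M)
    (K : Type) [Field K] [NumberField K]
    (hrat : ∀ J : Finset (Fin q), J.card = N → ∀ (L : Type) [Field L] [Algebra K L]
      (x : Fin n → L), x ≠ 0 → (∀ j ∈ J, aeval x (F j) = 0) → (∀ k, aeval x (G k) = 0) →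
        ∃ (y : Fin n → K) (c : L), x = c • fun b => algebraMap K L (y b))
    (hred : ∀ J : Finset (Fin q), J.card = N → ∀ a,
      ∀ Q ∈ (Ideal.span (Set.range (Sum.elim (fun j : J => bK K (F j.1))
        (fun k => bK K (G k))))).radical ^ μ,
      ∃ M : ℕ, X a ^ M * Q ∈ Ideal.span (Set.range (Sum.elim (fun j : J => bK K (F j.1))
        (fun k => bK K (G k)))))
    (hM : ∀ J : Finset (Fin q), J.card = M → ∀ (L : Type) [Field L] [Algebra K L]
      (x : Fin n → L), x ≠ 0 → (∀ j ∈ J, aeval x (F j) = 0) → ¬ ∀ k, aeval x (G k) = 0)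
    (hNq : N ≤ q)
    (S : Finset ℕ) (hS : ∀ ℓ ∈ S, ℓ.Prime)
    (Δ : ℕ) (hΔ : ∀ I : Finset (Fin q), I.card ≤ (N - 1) * (S.card + 1) → ∑ i ∈ I, d i ≤ Δ)
    (ε : ℝ) (hε : 0 < ε) :
    ∃ C : ℝ, ∀ x : Fin n → ℤ, Prim x → (∀ k, eval x (G k) = 0) →
      (∀ i, eval x (F i) ≠ 0) →
      ∑ i, (d i * Real.log (hgt x) - Real.log (sfree S (eval x (F i)))) ≤
        (Δ + ((M : ℝ) - N) * μ * (2 + ε)) * Real.log (hgt x) + C := by
  obtain ⟨Y, C, hY, hfa, hC0, hC⟩ := fin_core G g hG F d hF hN hNq K hrat hred S hS ε hε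
  obtain ⟨C', hC'0, hC'⟩ := assemble G g hG F d hF hN hNM hM S hS Y hY hfa Δ hΔ C μ hC0
    (Nat.cast_nonneg _)
  refine ⟨C' + ((M : ℝ) - N) * μ * C, fun x hx hGx hFx => ?_⟩
  obtain ⟨U, hU0, hU1, hU2⟩ := hC x hx hGx hFx
  have h1 := hC' x hx hGx hFx U hU0 hU2
  have hNM' : (0 : ℝ) ≤ ((M : ℝ) - N) * μ := by
    have : (N : ℝ) ≤ M := by exact_mod_cast hNM
    exact mul_nonneg (by linarith) (Nat.cast_nonneg _)
  have h2 := mul_le_mul_of_nonneg_left hU1 hNM'
  calc _ ≤ _ := h1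
    _ ≤ Δ * Real.log (hgt x) + ((M : ℝ) - N) * μ * ((2 + ε) * Real.log (hgt x) + C) + C' := by
        linarith
    _ = _ := by ring

/-- the real part of an algebraic number -/
lemma alg_re {z : ℂ} (hz : IsAlgebraic ℚ z) : IsAlgebraic ℚ z.re := by
  have h1 : IsAlgebraic ℚ ((starRingEnd ℂ) z) :=
    hz.algHom (Complex.conjAe.toAlgHom.restrictScalars ℚ)
  have h2 : IsAlgebraic ℚ (z + (starRingEnd ℂ) z) := hz.add h1
  have h3 : z + (starRingEnd ℂ) z = ((2 * z.re : ℝ) : ℂ) := by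
    rw [Complex.add_conj]
  rw [h3] at h2
  have h4 : IsAlgebraic ℚ (2 * z.re : ℝ) :=
    (isAlgebraic_algebraMap_iff (R := ℚ) (S := ℝ) (A := ℂ) (algebraMap ℝ ℂ).injective).1 h2
  have h5 : z.re = (2 * z.re) * ((1 / 2 : ℚ) : ℝ) := by
    push_cast
    ring
  rw [h5]
  exact h4.mul (isAlgebraic_algebraMap (R := ℚ) (A := ℝ) (1 / 2 : ℚ))

/-- the distance to a point at an archimedean place is bounded by `H ^ (-τ)` off finitely many
hyperplanes -/
def Far {n : ℕ} (w : InfinitePlace K) (τ : ℝ) (y : ℙ K (Fin n → K)) : Prop :=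
  ∃ (Z : Finset (Fin n → ℤ)) (C : ℝ), (∀ z ∈ Z, z ≠ 0) ∧ 0 ≤ C ∧ ∀ x : Fin n → ℤ, x ≠ 0 →
    (∀ z ∈ Z, ∑ l, z l * x l ≠ 0) →
      - Real.log (del w.1 y.rep (ck K x)) ≤ τ * Real.log (hgt x) + C

lemma nrm_inf (w : InfinitePlace K) {n : ℕ} (x : Fin n → ℤ) : nrm w.1 (ck K x) = hgt x := by
  unfold nrm hgt ck
  congr 1
  funext j
  show w _ = _
  rw [← InfinitePlace.norm_embedding_eq, map_intCast, Complex.norm_intCast]

/-- Schmidt -/
theorem far_sch (w : InfinitePlace K) {n : ℕ} (hn : 2 ≤ n) (ε : ℝ) (hε : 0 < ε)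
    (y : ℙ K (Fin n → K)) : Far w (1 + 1 / ((n : ℝ) - 1) + ε) y := by
  classical
  obtain ⟨a, ha⟩ := Function.ne_iff.1 y.rep_nonzero
  rw [Pi.zero_apply] at ha
  set σ : K →+* ℂ := w.embedding with hσ
  have hσa : σ (y.rep a) ≠ 0 := (map_ne_zero σ).2 ha
  set α : Fin n → ℝ := fun l => (σ (y.rep l / y.rep a)).re with hα
  have halg : ∀ l, IsAlgebraic ℚ (α l) := by
    intro l
    refine alg_re ?_
    exact (Algebra.IsAlgebraic.isAlgebraic (R := ℚ) (y.rep l / y.rep a)).algHom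
      (σ.toRatAlgHom)
  obtain ⟨Z, C, hZ, hC, hx⟩ := simul hn α halg a ε hε
  have hCa : 0 < C / ‖σ (y.rep a)‖ := div_pos hC (norm_pos_iff.2 hσa)
  refine ⟨Z, |Real.log (C / ‖σ (y.rep a)‖)|, hZ, abs_nonneg _, fun x hx0 hxZ => ?_⟩
  obtain ⟨l, -, hl⟩ := hx x hx0 hxZ
  have hH := hgt_ge_one hx0
  have hHp : 0 < hgt x := by linarith
  have hxK : ck K x ≠ 0 := ck_ne hx0
  -- the distance
  have h2 := le_del w.1 y.rep (ck K x) (l, a)
  have h3 : rho w.1 1 (eqn y.rep (l, a)) (ck K x) =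
      ‖σ (y.rep a)‖ * ‖(x l : ℂ) - σ (y.rep l / y.rep a) * x a‖ / hgt x := by
    unfold rho
    rw [nrm_inf, pow_one, aeval_eqn]
    congr 1
    show w _ = _
    rw [← InfinitePlace.norm_embedding_eq, ← norm_mul]
    congr 1
    simp only [ck, map_sub, map_mul, map_intCast, Algebra.algebraMap_self, RingHom.id_apply,
      map_div₀]
    rw [← hσ]
    field_simp
  have h4 : |(x l : ℝ) - α l * x a| ≤ ‖(x l : ℂ) - σ (y.rep l / y.rep a) * x a‖ := by
    have e1 : ((x l : ℂ) - σ (y.rep l / y.rep a) * x a).re = (x l : ℝ) - α l * x a := by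
      simp [hα]
    rw [← e1]
    exact Complex.abs_re_le_norm _
  have h5 : hgt x ^ (-(1 + 1 / ((n : ℝ) - 1) + ε)) ≤
      C / ‖σ (y.rep a)‖ * del w.1 y.rep (ck K x) := by
    have e1 : hgt x ^ (-(1 + 1 / ((n : ℝ) - 1) + ε)) =
        hgt x ^ (-(1 / ((n : ℝ) - 1) + ε)) / hgt x := by
      rw [show -(1 + 1 / ((n : ℝ) - 1) + ε) = -(1 / ((n : ℝ) - 1) + ε) + (-1 : ℝ) by ring,
        Real.rpow_add hHp, Real.rpow_neg_one]
      rfl
    rw [e1]
    have e2 : hgt x ^ (-(1 / ((n : ℝ) - 1) + ε)) / hgt x ≤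
        C * ‖(x l : ℂ) - σ (y.rep l / y.rep a) * x a‖ / hgt x :=
      div_le_div_of_nonneg_right (hl.trans (mul_le_mul_of_nonneg_left h4 hC.le)) hHp.le
    have e3 : C * ‖(x l : ℂ) - σ (y.rep l / y.rep a) * x a‖ / hgt x =
        C / ‖σ (y.rep a)‖ * rho w.1 1 (eqn y.rep (l, a)) (ck K x) := by
      rw [h3]
      have : ‖σ (y.rep a)‖ ≠ 0 := (norm_pos_iff.2 hσa).ne'
      field_simp
    rw [e3] at e2
    exact e2.trans (mul_le_mul_of_nonneg_left h2 hCa.le)
  have hdel : 0 < del w.1 y.rep (ck K x) := by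
    by_contra hcon
    have h6 : 0 < hgt x ^ (-(1 + 1 / ((n : ℝ) - 1) + ε)) := Real.rpow_pos_of_pos hHp _
    have h7 : C / ‖σ (y.rep a)‖ * del w.1 y.rep (ck K x) ≤ 0 :=
      mul_nonpos_of_nonneg_of_nonpos hCa.le (not_lt.1 hcon)
    linarith
  have h6 := Real.log_le_log (Real.rpow_pos_of_pos hHp _) h5
  rw [Real.log_rpow hHp, Real.log_mul hCa.ne' hdel.ne'] at h6
  have h7 := le_abs_self (Real.log (C / ‖σ (y.rep a)‖))
  linarith

/-- points on rational hyperplanes -/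
theorem far_hyp (w : InfinitePlace K) {n : ℕ} (y : ℙ K (Fin n → K)) (z : Fin n → ℤ)
    (hz : z ≠ 0) (hzy : ∑ l, (z l : K) * y.rep l = 0) : Far w 1 y := by
  classical
  obtain ⟨a, ha⟩ := Function.ne_iff.1 y.rep_nonzero
  rw [Pi.zero_apply] at ha
  have hwa : 0 < w.1 (y.rep a) := w.1.pos ha
  have hzs : 0 < ∑ l, |(z l : ℝ)| := by
    obtain ⟨b, hb⟩ := Function.ne_iff.1 hz
    refine Finset.sum_pos' (fun l _ => abs_nonneg _) ⟨b, Finset.mem_univ _, ?_⟩
    rw [abs_pos]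
    exact_mod_cast hb
  set C : ℝ := (∑ l, |(z l : ℝ)|) / w.1 (y.rep a) with hC
  have hCp : 0 < C := div_pos hzs hwa
  refine ⟨{z}, |Real.log C|, by simpa using hz, abs_nonneg _, fun x hx0 hxZ => ?_⟩
  have hxz := hxZ z (Finset.mem_singleton_self z)
  have hH := hgt_ge_one hx0
  have hHp : 0 < hgt x := by linarith
  have hint : ∀ m : ℤ, w.1 (m : K) = |(m : ℝ)| := by
    intro m
    show w _ = _
    rw [← InfinitePlace.norm_embedding_eq, map_intCast, Complex.norm_intCast]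
  have h1 : ((∑ l, z l * x l : ℤ) : K) * y.rep a =
      ∑ l, (z l : K) * ((x l : K) * y.rep a - (x a : K) * y.rep l) := by
    push_cast
    rw [Finset.sum_mul]
    have e1 : ∑ l, (z l : K) * ((x l : K) * y.rep a - (x a : K) * y.rep l) =
        ∑ l, (z l : K) * (x l : K) * y.rep a - (x a : K) * ∑ l, (z l : K) * y.rep l := by
      rw [Finset.mul_sum, ← Finset.sum_sub_distrib]
      exact Finset.sum_congr rfl fun l _ => by ring
    rw [e1, hzy, mul_zero, sub_zero]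
  have h2 : ∀ l, w.1 ((x l : K) * y.rep a - (x a : K) * y.rep l) ≤
      hgt x * del w.1 y.rep (ck K x) := by
    intro l
    have e1 := le_del w.1 y.rep (ck K x) (l, a)
    unfold rho at e1
    rw [nrm_inf, pow_one, aeval_eqn, div_le_iff₀ hHp] at e1
    have e2 : w.1 ((x l : K) * y.rep a - (x a : K) * y.rep l) =
        w.1 (ck K x (l, a).1 * algebraMap K K (y.rep (l, a).2) -
          ck K x (l, a).2 * algebraMap K K (y.rep (l, a).1)) := rfl
    rw [e2]
    linarith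
  have h3 : 1 * w.1 (y.rep a) ≤ (∑ l, |(z l : ℝ)|) * (hgt x * del w.1 y.rep (ck K x)) := by
    have e1 : (1 : ℝ) ≤ w.1 ((∑ l, z l * x l : ℤ) : K) := by
      rw [hint]
      exact_mod_cast Int.one_le_abs hxz
    calc 1 * w.1 (y.rep a) ≤ w.1 ((∑ l, z l * x l : ℤ) : K) * w.1 (y.rep a) :=
          mul_le_mul_of_nonneg_right e1 hwa.le
      _ = w.1 (∑ l, (z l : K) * ((x l : K) * y.rep a - (x a : K) * y.rep l)) := by
          rw [← map_mul, h1]
      _ ≤ ∑ l, w.1 ((z l : K) * ((x l : K) * y.rep a - (x a : K) * y.rep l)) :=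
          w.1.sum_le _ _
      _ ≤ ∑ l, |(z l : ℝ)| * (hgt x * del w.1 y.rep (ck K x)) := by
          refine Finset.sum_le_sum fun l _ => ?_
          rw [map_mul, hint]
          exact mul_le_mul_of_nonneg_left (h2 l) (abs_nonneg _)
      _ = _ := by rw [Finset.sum_mul]
  have h4 : hgt x ^ (-1 : ℝ) ≤ C * del w.1 y.rep (ck K x) := by
    rw [Real.rpow_neg_one, hC, inv_le_iff_one_le_mul₀ hHp]
    have e1 : (∑ l, |(z l : ℝ)|) / w.1 (y.rep a) * del w.1 y.rep (ck K x) * hgt x =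
        ((∑ l, |(z l : ℝ)|) * (hgt x * del w.1 y.rep (ck K x))) / w.1 (y.rep a) := by ring
    rw [e1, le_div_iff₀ hwa]
    exact h3
  have hdel : 0 < del w.1 y.rep (ck K x) := by
    by_contra hcon
    have h6 : 0 < hgt x ^ (-1 : ℝ) := Real.rpow_pos_of_pos hHp _
    have h7 : C * del w.1 y.rep (ck K x) ≤ 0 :=
      mul_nonpos_of_nonneg_of_nonpos hCp.le (not_lt.1 hcon)
    linarith
  have h6 := Real.log_le_log (Real.rpow_pos_of_pos hHp _) h4
  rw [Real.log_rpow hHp, Real.log_mul hCp.ne' hdel.ne'] at h6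
  have h7 := le_abs_self (Real.log C)
  linarith

omit [NumberField K] in
/-- distances to finitely many points at the archimedean place, off finitely many hyperplanes -/
theorem far_all (w : InfinitePlace K) {n : ℕ} (τ : ℝ) (T : Finset (ℙ K (Fin n → K)))
    (hT : ∀ y ∈ T, Far w τ y) :
    ∃ (Z : Finset (Fin n → ℤ)) (C : ℝ), (∀ z ∈ Z, z ≠ 0) ∧ 0 ≤ C ∧ ∀ x : Fin n → ℤ, x ≠ 0 →
      (∀ z ∈ Z, ∑ l, z l * x l ≠ 0) → ∀ y ∈ T,
        - Real.log (del w.1 y.rep (ck K x)) ≤ τ * Real.log (hgt x) + C := by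
  classical
  have h1 : ∀ y : T, Far w τ y.1 := fun y => hT y.1 y.2
  choose Z C hZ hC hx using h1
  refine ⟨Finset.univ.biUnion Z, ∑ y, C y, fun z hz => ?_, Finset.sum_nonneg fun y _ => hC y,
    fun x hx0 hxZ y hy => ?_⟩
  · obtain ⟨y, -, hzy⟩ := Finset.mem_biUnion.1 hz
    exact hZ y z hzy
  · have h2 := hx ⟨y, hy⟩ x hx0 fun z hz =>
      hxZ z (Finset.mem_biUnion.2 ⟨⟨y, hy⟩, Finset.mem_univ _, hz⟩)
    have h3 := Finset.single_le_sum (f := C) (fun y _ => hC y) (Finset.mem_univ ⟨y, hy⟩)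
    linarith

/-- the archimedean place -/
theorem proxInf {n q N M μ : ℕ} {κ : Type} [Fintype κ]
    (G : κ → MvPolynomial (Fin n) ℤ)
    (g : κ → ℕ) (hG : ∀ k, (G k).IsHomogeneous (g k)) (F : Fin q → MvPolynomial (Fin n) ℤ)
    (d : Fin q → ℕ) (hF : ∀ i, (F i).IsHomogeneous (d i)) (hN : 1 ≤ N) (hNM : N ≤ M)
    (K : Type) [Field K] [NumberField K]
    (hrat : ∀ J : Finset (Fin q), J.card = N → ∀ (L : Type) [Field L] [Algebra K L]
      (x : Fin n → L), x ≠ 0 → (∀ j ∈ J, aeval x (F j) = 0) → (∀ k, aeval x (G k) = 0) →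
        ∃ (y : Fin n → K) (c : L), x = c • fun b => algebraMap K L (y b))
    (hred : ∀ J : Finset (Fin q), J.card = N → ∀ a,
      ∀ Q ∈ (Ideal.span (Set.range (Sum.elim (fun j : J => bK K (F j.1))
        (fun k => bK K (G k))))).radical ^ μ,
      ∃ M : ℕ, X a ^ M * Q ∈ Ideal.span (Set.range (Sum.elim (fun j : J => bK K (F j.1))
        (fun k => bK K (G k)))))
    (hM : ∀ J : Finset (Fin q), J.card = M → ∀ (L : Type) [Field L] [Algebra K L]
      (x : Fin n → L), x ≠ 0 → (∀ j ∈ J, aeval x (F j) = 0) → ¬ ∀ k, aeval x (G k) = 0)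
    (Δ : ℕ) (hΔ : ∀ I : Finset (Fin q), I.card ≤ N - 1 → ∑ i ∈ I, d i ≤ Δ)
    (τ : ℝ) (hτ : 0 ≤ τ) (hfar : ∀ (w : InfinitePlace K) (y : ℙ K (Fin n → K)),
      (∃ J : Finset (Fin q), J.card = N ∧ (∀ j ∈ J, eval y.rep (bK K (F j)) = 0) ∧
        ∀ k, eval y.rep (bK K (G k)) = 0) → Far w τ y) :
    ∃ (Z : Finset (Fin n → ℤ)) (C : ℝ), (∀ z ∈ Z, z ≠ 0) ∧ ∀ x : Fin n → ℤ, Prim x →
      (∀ k, eval x (G k) = 0) → (∀ i, eval x (F i) ≠ 0) → (∀ z ∈ Z, ∑ l, z l * x l ≠ 0) →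
      ∑ i, (d i * Real.log (hgt x) - Real.log (sfree ∅ (eval x (F i)))) ≤
        (Δ + ((M : ℝ) - N) * μ * τ) * Real.log (hgt x) + C := by
  classical
  obtain ⟨Y, w, v, s, hs, hw, hv, hY⟩ := exists_sys K ∅ (by simp)
  have hfa : ∀ o, ∃ (p : Pl K) (s : ℝ), 0 < s ∧ ∀ x, Y.fa o x = av p x ^ s := by
    rintro (_ | i)
    · refine ⟨Sum.inl w, 1, one_pos, fun x => ?_⟩
      rw [Real.rpow_one]
      show Y.f0 x = _
      rw [hw]
      rfl
    · exact ⟨Sum.inr (v i), s i, hs i, fun x => hv i x⟩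
  -- the common points
  have h1 : ∀ J : {J : Finset (Fin q) // J.card = N}, ∃ T : Finset (ℙ K (Fin n → K)),
      (∀ y ∈ T, (∀ i ∈ J.1, eval y.rep (bK K (F i)) = 0) ∧ ∀ k, eval y.rep (bK K (G k)) = 0) ∧
        ∀ (L : Type) [Field L] [Algebra K L]
        (x : Fin n → L), x ≠ 0 → (∀ j ∈ J.1, aeval x (bK K (F j)) = 0) →
        (∀ k, aeval x (bK K (G k)) = 0) →
        ∃ y ∈ T, ∃ c : L, x = c • fun b => algebraMap K L (y.rep b) := by
    intro J
    obtain ⟨T, hT1, hT2⟩ := finite_pts (Sum.elim (fun j : J.1 => bK K (F j.1))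
      (fun k => bK K (G k))) (Sum.elim (fun j : J.1 => d j.1) g) (by
        rintro (i | k)
        · exact bK_hom K (hF i.1)
        · exact bK_hom K (hG k)) (by
        intro L _ _ x hx h
        refine hrat J.1 J.2 L x hx (fun j hj => ?_) fun k => ?_
        · rw [← aeval_bK (K := K)]
          exact h (Sum.inl ⟨j, hj⟩)
        · rw [← aeval_bK (K := K)]
          exact h (Sum.inr k))
    refine ⟨T, fun y hy => ?_, fun L _ _ x hx ha hb => ?_⟩
    · exact ⟨fun j hj => hT1 y hy (Sum.inl ⟨j, hj⟩), fun k => hT1 y hy (Sum.inr k)⟩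
    · refine hT2 L x hx ?_
      rintro (i | k)
      · exact ha i.1 i.2
      · exact hb k
  choose T hT1 hT2 using h1
  set TT : Finset (ℙ K (Fin n → K)) := Finset.univ.biUnion T with hTT
  have hTT0 : ∀ y ∈ TT, ∃ i, eval y.rep (bK K (F i)) = 0 := by
    intro y hy
    rw [hTT, Finset.mem_biUnion] at hy
    obtain ⟨t, -, hyt⟩ := hy
    have hne : t.1.Nonempty := by
      rw [← Finset.card_pos, t.2]
      exact hN
    obtain ⟨j, hj⟩ := hne
    exact ⟨j, (hT1 t y hyt).1 j hj⟩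
  have hloc : ∀ o, ∃ C : ℝ, 0 ≤ C ∧ ∀ x : Fin n → K, x ≠ 0 → (∀ k, aeval x (bK K (G k)) = 0) →
      (∀ i, aeval x (bK K (F i)) ≠ 0) → (∀ y ∈ TT, ¬ ∃ c : K, x = c • y.rep) →
      ∀ U : ℝ, 0 ≤ U → (∀ y ∈ TT, - Real.log (del (Y.fa o) y.rep x) ≤ U) →
      ∀ J : Finset (Fin q), J.card = N → ∀ i ∈ J,
        (∀ j ∈ J, rho (Y.fa o) (d j) (bK K (F j)) x ≤ rho (Y.fa o) (d i) (bK K (F i)) x) →
        - Real.log (rho (Y.fa o) (d i) (bK K (F i)) x) ≤ C + μ * U := by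
    intro o
    obtain ⟨p, s, hs, hf⟩ := hfa o
    exact locN (fun k => bK K (G k)) g (fun k => bK_hom K (hG k)) (fun i => bK K (F i)) d
      (fun i => bK_hom K (hF i)) μ N hred TT (by
        intro J hJ L _ _ x hx ha hb
        obtain ⟨y, hy, h⟩ := hT2 ⟨J, hJ⟩ L x hx ha hb
        exact ⟨y, Finset.mem_biUnion.2 ⟨⟨J, hJ⟩, Finset.mem_univ _, hy⟩, h⟩) (Y.fa o) p s hs hf
  choose C1 hC10 hC1 using hloc
  obtain ⟨Z, C2, hZ, hC20, hC2⟩ := far_all w τ TT (by
    intro y hy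
    rw [hTT, Finset.mem_biUnion] at hy
    obtain ⟨t, -, hyt⟩ := hy
    exact hfar w y ⟨t.1, t.2, (hT1 t y hyt).1, (hT1 t y hyt).2⟩)
  obtain ⟨C3, hC30, hC3⟩ := assemble G g hG F d hF hN hNM hM ∅ (by simp) Y hY hfa Δ
    (fun I hI => hΔ I (by simpa using hI)) (C1 none) μ (hC10 none) (Nat.cast_nonneg _)
  have hNM' : (0 : ℝ) ≤ ((M : ℝ) - N) * μ := by
    have : (N : ℝ) ≤ M := by exact_mod_cast hNM
    exact mul_nonneg (by linarith) (Nat.cast_nonneg _)
  refine ⟨Z, C3 + ((M : ℝ) - N) * μ * C2, hZ, fun x hx hGx hFx hxZ => ?_⟩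
  have hxK : ck K x ≠ 0 := ck_ne hx.ne
  have hlog : 0 ≤ Real.log (hgt x) := Real.log_nonneg (hgt_ge_one hx.ne)
  have hxT : ∀ y ∈ TT, ¬ ∃ c : K, ck K x = c • y.rep := by
    rintro y hy ⟨c, hc⟩
    obtain ⟨i, hi⟩ := hTT0 y hy
    have h1 : aeval (ck K x) (bK K (F i)) = 0 := by
      have h2 : ck K x = c • fun b => algebraMap K K (y.rep b) := hc
      rw [h2, aeval_smul_hom' _ (bK_hom K (hF i)), aeval_map_K', hi, map_zero, mul_zero]
    rw [aeval_ck] at h1
    exact hFx i (by exact_mod_cast h1)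
  set U0 : ℝ := τ * Real.log (hgt x) + C2 with hU0
  have hU00 : 0 ≤ U0 := by positivity
  have hem : ∀ o : Option (∅ : Finset ℕ), o = none := by
    rintro (_ | ⟨i, hi⟩)
    · rfl
    · exact absurd hi (Finset.notMem_empty _)
  have h4 := hC3 x hx hGx hFx (fun _ => U0) (fun _ => hU00) (by
    intro o J hJ i hi hmin
    rw [hem o] at hmin ⊢
    exact hC1 none (ck K x) hxK (fun k => by rw [aeval_ck, hGx k, Int.cast_zero])
      (fun i => by
        rw [aeval_ck]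
        exact_mod_cast hFx i) hxT U0 hU00
      (fun y hy => by
        have h := hC2 x hx.ne hxZ y hy
        have e : Y.fa none = w.1 := hw
        rw [e]
        exact h) J hJ i hi hmin)
  have h5 : ∑ _o : Option (∅ : Finset ℕ), U0 = U0 := by
    rw [Finset.sum_const, Finset.card_univ, Fintype.card_option, Fintype.card_coe,
      Finset.card_empty, zero_add, one_smul]
  rw [h5] at h4
  calc _ ≤ _ := h4
    _ = _ := by rw [hU0]; ring

end Pool.Agent.Q13.AP
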