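import Pool.Agent.TH286.GT.All
import Pool.Agent.W180.RR.Proj

set_option autoImplicit false

/-!
Simultaneous approximation of algebraic points of projective space by rational points, off
finitely many hyperplanes (Schmidt), from the library subspace theorem.
-/

namespace Pool.Agent.Q13.AP

open Finset Filter Topology Pool.Agent.TH286.GT Pool.Agent.W180.RR

/-- the matrix of the forms `x a` and `ν x l - d l x a` -/
def Mat {O : Type} [CommRing O] {n : ℕ} (a : Fin n) (ν : O) (d : Fin n → O) :
    Matrix (Fin n) (Fin n) O := fun i j =>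
  if i = a then (if j = a then 1 else 0) else (if j = i then ν else 0) - (if j = a then d i else 0)

lemma Mat_mulVec {O : Type} [CommRing O] {n : ℕ} (a : Fin n) (ν : O) (d : Fin n → O)
    (v : Fin n → O) (i : Fin n) : ∑ j, Mat a ν d i j * v j =
      if i = a then v a else ν * v i - d i * v a := by
  unfold Mat
  by_cases hi : i = a
  · simp only [if_pos hi, ite_mul, one_mul, zero_mul, Finset.sum_ite_eq', Finset.mem_univ, if_true]
  · simp only [if_neg hi, sub_mul, ite_mul, zero_mul, Finset.sum_sub_distrib, Finset.sum_ite_eq',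
      Finset.mem_univ, if_true]

lemma Mat_det {O : Type} [CommRing O] [IsDomain O] {n : ℕ} (a : Fin n) {ν : O} (hν : ν ≠ 0)
    (d : Fin n → O) : (Mat a ν d).det ≠ 0 := by
  intro h
  obtain ⟨v, hv, hv'⟩ := Matrix.exists_mulVec_eq_zero_iff.2 h
  apply hv
  have h1 : ∀ i, (if i = a then v a else ν * v i - d i * v a) = 0 := by
    intro i
    rw [← Mat_mulVec]
    exact congrFun hv' i
  have ha : v a = 0 := by
    have := h1 a
    rwa [if_pos rfl] at this
  funext i
  by_cases hi : i = a
  · rw [hi, ha]
    rfl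
  · have := h1 i
    rw [if_neg hi, ha, mul_zero, sub_zero] at this
    exact (mul_eq_zero.1 this).resolve_left hν

/-- finitely many integer vectors of bounded height -/
lemma hgt_fin {n : ℕ} (B : ℝ) : {x : Fin n → ℤ | hgt x ≤ B}.Finite := by
  refine (Set.finite_Icc (fun _ : Fin n => -(⌈B⌉)) (fun _ => ⌈B⌉)).subset ?_
  intro x hx
  have hx' : hgt x ≤ B := hx
  rw [Set.mem_Icc]
  constructor
  · intro j
    have h1 := (le_hgt x j).trans (hx'.trans (Int.le_ceil B))
    rw [abs_le] at h1
    exact_mod_cast h1.1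
  · intro j
    have h1 := (le_hgt x j).trans (hx'.trans (Int.le_ceil B))
    rw [abs_le] at h1
    exact_mod_cast h1.2

/-- a sequence of good approximations off more and more hyperplanes does not exist -/
theorem no_seq {n : ℕ} (hn : 2 ≤ n) (α : Fin n → ℝ) (hα : ∀ i, IsAlgebraic ℚ (α i)) (a : Fin n)
    (ε : ℝ) (hε : 0 < ε) (x : ℕ → Fin n → ℤ) (hx : ∀ t, x t ≠ 0)
    (e : ℕ → Fin n → ℤ) (he : ∀ z : Fin n → ℤ, z ≠ 0 → ∃ j, e j = z)
    (hoff : ∀ t, ∀ j ≤ t, ∑ l, e j l * x t l ≠ 0)
    (hN : Tendsto (fun t => Real.log (hgt (x t))) atTop atTop)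
    (hC : Tendsto (fun t : ℕ => (t : ℝ)) atTop atTop)
    (hsm : ∀ t : ℕ, ∀ l, l ≠ a → (t : ℝ) * |(x t l : ℝ) - α l * x t a| <
      hgt (x t) ^ (-(1 / ((n : ℝ) - 1) + ε))) : False := by
  have hn1 : (1 : ℝ) ≤ (n : ℝ) - 1 := by
    have : (2 : ℝ) ≤ n := by exact_mod_cast hn
    linarith
  -- the number field
  set F : IntermediateField ℚ ℝ := IntermediateField.adjoin ℚ (Set.range α) with hFdef
  have hF : FiniteDimensional ℚ F := by
    apply IntermediateField.finiteDimensional_adjoin
    rintro x ⟨i, rfl⟩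
    exact (hα i).isIntegral
  have : NumberField F := { to_charZero := inferInstance, to_finiteDimensional := hF }
  let c : Fin n → F := fun i => ⟨α i, IntermediateField.subset_adjoin ℚ _ ⟨i, rfl⟩⟩
  obtain ⟨Nn, hNn⟩ := IsLocalization.exist_integer_multiples_of_finite
    (nonZeroDivisors (NumberField.RingOfIntegers F)) c
  have hN0 : (Nn : NumberField.RingOfIntegers F) ≠ 0 := nonZeroDivisors.ne_zero Nn.2
  have hN' : ∀ i, ∃ M : NumberField.RingOfIntegers F,
      algebraMap (NumberField.RingOfIntegers F) F M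
        = algebraMap (NumberField.RingOfIntegers F) F (Nn : NumberField.RingOfIntegers F)
          * c i := by
    intro i
    obtain ⟨M, hM⟩ := hNn i
    refine ⟨M, ?_⟩
    rw [hM, Algebra.smul_def]
  choose d hd using hN'
  have hinj : Function.Injective (algebraMap (NumberField.RingOfIntegers F) F) :=
    IsFractionRing.injective _ _
  set ψ : NumberField.RingOfIntegers F →+* ℝ :=
    (algebraMap F ℝ).comp (algebraMap (NumberField.RingOfIntegers F) F) with hψ
  set φ : NumberField.RingOfIntegers F →+* ℂ := Complex.ofRealHom.comp ψ with hφ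
  set ν : ℝ := ψ (Nn : NumberField.RingOfIntegers F) with hν
  have hν0 : ν ≠ 0 := by
    intro h
    apply hN0
    apply hinj
    rw [map_zero]
    apply (algebraMap F ℝ).injective
    rw [map_zero]
    exact h
  have hψd : ∀ i, ψ (d i) = ν * α i := by
    intro i
    have h1 := congrArg (algebraMap F ℝ) (hd i)
    rw [map_mul] at h1
    exact h1
  have hφr : ∀ o, φ o = ((ψ o : ℝ) : ℂ) := fun o => rfl
  -- the tail
  obtain ⟨t0, ht0⟩ : ∃ t0 : ℕ, ∀ t, t0 ≤ t → |ν| ≤ (t : ℝ) ∧ 0 ≤ Real.log (hgt (x t)) := by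
    obtain ⟨t0, ht0⟩ := eventually_atTop.1 ((hC.eventually (eventually_ge_atTop |ν|)).and
      (hN.eventually (eventually_ge_atTop 0)))
    exact ⟨t0, ht0⟩
  set β : ℝ := 1 / ((n : ℝ) - 1) + ε with hβ
  have hβ0 : 0 < β := by positivity
  let A : ℕ → Fin n → ℝ := fun t l => if l = a then hgt (x (t + t0)) else hgt (x (t + t0)) ^ (-β)
  have hHp : ∀ t, 0 < hgt (x t) := fun t => by linarith [hgt_ge_one (hx t)]
  set γ : ℝ := ((n : ℝ) - 1) * ε with hγ
  have hγ0 : 0 < γ := by positivity
  have hlogA : ∀ t l, Real.log (A t l) = if l = a then Real.log (hgt (x (t + t0))) else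
      -β * Real.log (hgt (x (t + t0))) := by
    intro t l
    by_cases hl : l = a
    · simp only [A, if_pos hl]
    · simp only [A, if_neg hl]
      rw [Real.log_rpow (hHp _)]
  have hsum : ∀ t, ∑ l, Real.log (A t l) = -γ * Real.log (hgt (x (t + t0))) := by
    intro t
    simp_rw [hlogA]
    rw [← Finset.add_sum_erase _ _ (Finset.mem_univ a), if_pos rfl]
    have h1 : ∑ l ∈ Finset.univ.erase a, (if l = a then Real.log (hgt (x (t + t0))) else
        -β * Real.log (hgt (x (t + t0)))) =
        ∑ _l ∈ Finset.univ.erase a, (-β * Real.log (hgt (x (t + t0)))) :=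
      Finset.sum_congr rfl fun l hl => if_neg (Finset.ne_of_mem_erase hl)
    rw [h1, Finset.sum_const, Finset.card_erase_of_mem (Finset.mem_univ a), Finset.card_univ,
      Fintype.card_fin, nsmul_eq_mul, Nat.cast_sub (by omega), Nat.cast_one, hγ, hβ]
    have : ((n : ℝ) - 1) ≠ 0 := by linarith
    field_simp
    ring
  have key := subspaceO (NumberField.RingOfIntegers F) φ n 0 (by omega)
    (Mat a (Nn : NumberField.RingOfIntegers F) d) 1 (fun v => v.elim0)
    (by
      refine ⟨Mat_det a hN0 d, fun i j => ?_, ?_, fun v => v.elim0⟩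
      · rw [hφr, Complex.ofReal_im]
      · rw [Matrix.det_one]
        exact one_ne_zero)
    (1 + β) γ (by linarith) hγ0 (fun t => Real.log (hgt (x (t + t0))))
    (hN.comp (tendsto_add_atTop_nat t0)) (fun _ v => v.elim0) (fun _ => 1)
    (by
      intro t
      refine ⟨by rw [Matrix.det_one]; exact one_ne_zero, ?_⟩
      ext i j
      unfold bet
      simp [Matrix.one_apply, Matrix.diagonal_apply])
    A
    (by
      intro t
      have hl0 := (ht0 (t + t0) (Nat.le_add_left _ _)).2
      refine ⟨?_, ?_, ?_, ?_⟩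
      · simp only [Matrix.det_one, Int.cast_one, abs_one, Real.log_one]
        positivity
      · intro l
        by_cases hl : l = a
        · simp only [A, if_pos hl]
          exact hHp _
        · simp only [A, if_neg hl]
          exact Real.rpow_pos_of_pos (hHp _) _
      · intro l
        rw [hlogA]
        by_cases hl : l = a
        · rw [if_pos hl, abs_of_nonneg hl0]
          nlinarith
        · rw [if_neg hl, abs_mul, abs_neg, abs_of_nonneg hl0, abs_of_pos hβ0]
          nlinarith
      · rw [hsum]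
        simp)
    (fun t => x (t + t0)) (fun t => hx _)
    (by
      intro t
      refine ⟨fun l => ?_, x (t + t0), by simp⟩
      have h1 := Mat_mulVec a (Nn : NumberField.RingOfIntegers F) d
        (fun j => ((x (t + t0) j : ℤ) : NumberField.RingOfIntegers F)) l
      rw [h1]
      by_cases hl : l = a
      · rw [if_pos hl, map_intCast]
        simp only [A, if_pos hl]
        rw [Complex.norm_intCast]
        exact le_hgt _ _
      · rw [if_neg hl, hφr, map_sub, map_mul, map_mul, map_intCast, map_intCast, hψd,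
          Complex.norm_real, Real.norm_eq_abs]
        simp only [A, if_neg hl]
        have h2 := hsm (t + t0) l hl
        have h3 := (ht0 (t + t0) (Nat.le_add_left _ _)).1
        have h4 : |ν * (x (t + t0) l : ℝ) - ν * α l * (x (t + t0) a : ℝ)| =
            |ν| * |(x (t + t0) l : ℝ) - α l * x (t + t0) a| := by
          rw [← abs_mul]
          congr 1
          ring
        have h5 : ψ (Nn : NumberField.RingOfIntegers F) * (x (t + t0) l : ℝ) -
            ν * α l * (x (t + t0) a : ℝ) =
            ν * (x (t + t0) l : ℝ) - ν * α l * (x (t + t0) a : ℝ) := rfl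
        rw [h5, h4]
        have h6 : |ν| * |(x (t + t0) l : ℝ) - α l * x (t + t0) a| ≤
            ((t + t0 : ℕ) : ℝ) * |(x (t + t0) l : ℝ) - α l * x (t + t0) a| :=
          mul_le_mul_of_nonneg_right h3 (abs_nonneg _)
        exact h6.trans h2.le)
  obtain ⟨y, hy, hfr⟩ := key
  obtain ⟨j, hj⟩ := he y hy
  rw [frequently_atTop] at hfr
  obtain ⟨t, ht, hty⟩ := hfr j
  refine hoff (t + t0) j (by omega) ?_
  rw [hj]
  exact hty

/-- simultaneous approximation -/
theorem simul {n : ℕ} (hn : 2 ≤ n) (α : Fin n → ℝ) (hα : ∀ i, IsAlgebraic ℚ (α i)) (a : Fin n)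
    (ε : ℝ) (hε : 0 < ε) :
    ∃ (Z : Finset (Fin n → ℤ)) (C : ℝ), (∀ z ∈ Z, z ≠ 0) ∧ 0 < C ∧ ∀ x : Fin n → ℤ, x ≠ 0 →
      (∀ z ∈ Z, ∑ l, z l * x l ≠ 0) →
      ∃ l, l ≠ a ∧ hgt x ^ (-(1 / ((n : ℝ) - 1) + ε)) ≤ C * |(x l : ℝ) - α l * x a| := by
  classical
  by_contra hcon
  push Not at hcon
  -- an enumeration
  have hne : Nonempty {z : Fin n → ℤ // z ≠ 0} := by
    refine ⟨⟨fun _ => 1, fun h => ?_⟩⟩
    have := congrFun h ⟨0, by omega⟩
    simp at this
  obtain ⟨e, he⟩ := exists_surjective_nat {z : Fin n → ℤ // z ≠ 0}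
  have hex : ∀ t : ℕ, ∃ x : Fin n → ℤ, x ≠ 0 ∧ (∀ j ≤ t, ∑ l, (e j).1 l * x l ≠ 0) ∧
      ∀ l, l ≠ a → ((t : ℝ) + 1) * |(x l : ℝ) - α l * x a| <
        hgt x ^ (-(1 / ((n : ℝ) - 1) + ε)) := by
    intro t
    obtain ⟨x, hx0, hx1, hx2⟩ := hcon ((Finset.range (t + 1)).image fun j => (e j).1) (t + 1) (by
      intro z hz
      obtain ⟨j, -, rfl⟩ := Finset.mem_image.1 hz
      exact (e j).2) (by positivity)
    refine ⟨x, hx0, fun j hj => hx1 _ (Finset.mem_image_of_mem _ (Finset.mem_range.2 (by omega))),
      hx2⟩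
  choose x hx0 hx1 hx2 using hex
  have hH : ∀ t, 1 ≤ hgt (x t) := fun t => hgt_ge_one (hx0 t)
  have hN : Tendsto (fun t => Real.log (hgt (x t))) atTop atTop := by
    rw [tendsto_atTop]
    intro B
    have hfin : {x : Fin n → ℤ | hgt x ≤ Real.exp B}.Finite := hgt_fin _
    -- every vector is on a hyperplane
    have hker : ∀ v : Fin n → ℤ, ∃ j, ∑ l, (e j).1 l * v l = 0 := by
      intro v
      set i0 : Fin n := ⟨0, by omega⟩
      set i1 : Fin n := ⟨1, by omega⟩
      have h01 : i0 ≠ i1 := by
        intro h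
        have := congrArg Fin.val h
        simp [i0, i1] at this
      by_cases hv : v i0 = 0
      · obtain ⟨j, hj⟩ := he ⟨fun l => if l = i0 then 1 else 0, fun h => by
          have := congrFun h i0
          simp at this⟩
        refine ⟨j, ?_⟩
        rw [hj]
        simp [hv]
      · obtain ⟨j, hj⟩ := he ⟨fun l => if l = i0 then v i1 else if l = i1 then - v i0 else 0,
          fun h => by
            have := congrFun h i1
            simp only [if_neg h01.symm, if_true, Pi.zero_apply, neg_eq_zero] at this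
            exact hv this⟩
        refine ⟨j, ?_⟩
        rw [hj]
        have h2 : ∀ l, (if l = i0 then v i1 else if l = i1 then - v i0 else 0) * v l =
            (if l = i0 then v i1 * v i0 else 0) + (if l = i1 then - v i0 * v i1 else 0) := by
          intro l
          by_cases h : l = i0
          · rw [h, if_pos rfl, if_pos rfl, if_neg h01, add_zero]
          · rw [if_neg h, if_neg h, zero_add]
            by_cases h' : l = i1
            · rw [h', if_pos rfl, if_pos rfl]
            · rw [if_neg h', if_neg h', zero_mul]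
        simp only [h2, Finset.sum_add_distrib, Finset.sum_ite_eq', Finset.mem_univ, if_true]
        ring
    choose j hj using hker
    filter_upwards [eventually_ge_atTop (hfin.toFinset.sup j)] with t ht
    by_contra hlt
    push Not at hlt
    have hmem : x t ∈ hfin.toFinset := by
      rw [Set.Finite.mem_toFinset]
      show hgt (x t) ≤ Real.exp B
      rw [← Real.exp_log (by linarith [hH t] : 0 < hgt (x t))]
      exact Real.exp_le_exp.2 hlt.le
    exact hx1 t (j (x t)) ((Finset.le_sup hmem).trans ht) (hj (x t))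
  refine no_seq hn α hα a ε hε x hx0 (fun j => (e j).1) (fun z hz => ?_) hx1 hN
    tendsto_natCast_atTop_atTop (fun t l hl => ?_)
  · obtain ⟨j, hj⟩ := he ⟨z, hz⟩
    exact ⟨j, by rw [hj]⟩
  · refine lt_of_le_of_lt ?_ (hx2 t l hl)
    exact mul_le_mul_of_nonneg_right (by linarith) (abs_nonneg _)

end Pool.Agent.Q13.AP
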